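import Mathlib

set_option autoImplicit false

/-!
# The threshold `g(k)` for prime powers in two-generator Frobenius problems grows faster than `M ^ k`

For `T = t ^ 2` and `N = t ^ k` one of the pairs `(A, A + 1)` with `N < A ≤ 2 N` is not `k`-good. A `k`-th
power `n = p ^ k = A x + (A + 1) y` of the form considered satisfies `A q ≤ n ≤ (A + 1) q` with
`q = x + y`, and for given `n` and `q ≥ 1` there are at most two such `A`. The primes `p > T` are too large
(`p ^ k > (2 N) ^ 2`) and the primes `p < T` give at most `T (T - 1) ^ k / N` pairs `(p, q)`; and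
`2 T (T - 1) ^ k < T ^ k = N ^ 2` for large `k`.
-/

namespace Pool.Agent.Results.MP_0e842d_nt.SuperexponentialGrowth

/-- The pair `(a, b)` is `k`-good: some prime `p` satisfies `p ^ k ≤ a b - a - b` and
`p ^ k = a x + b y` for some natural numbers `x`, `y`. -/
def Good (k a b : ℕ) : Prop :=
  ∃ p : ℕ, p.Prime ∧ p ^ k + a + b ≤ a * b ∧ ∃ x y : ℕ, p ^ k = a * x + b * y

/-- `N` is a positive integer such that every coprime pair `(a, b)` with `N < a < b` is `k`-good; `g(k)` is
the least such `N`. -/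
def IsThreshold (k N : ℕ) : Prop :=
  0 < N ∧ ∀ a b : ℕ, Nat.Coprime a b → N < a → a < b → Good k a b

/-- The counting argument. -/
theorem count (k t : ℕ) (ht : 2 ≤ t) (h1 : 2 * t ^ 2 * (t ^ 2 - 1) ^ k < (t ^ 2) ^ k)
    (h2 : 4 * (t ^ 2) ^ k < (t ^ 2 + 1) ^ k) (N : ℕ) (hN : IsThreshold k N) : t ^ k < N := by
  by_contra hcon
  push Not at hcon
  set T := t ^ 2 with hT
  set L := t ^ k with hL
  have hLL : T ^ k = L * L := by rw [hT, hL, ← pow_mul, mul_comm 2 k, pow_mul, sq]
  have hLpos : 0 < L := by positivity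
  have hgood : ∀ A ∈ Finset.Ioc L (2 * L), ∃ w : ℕ × ℕ, w.1 < T ∧ 1 ≤ w.2 ∧
      w.2 ≤ (T - 1) ^ k / L ∧ A * w.2 ≤ w.1 ^ k ∧ w.1 ^ k ≤ (A + 1) * w.2 := by
    intro A hA
    rw [Finset.mem_Ioc] at hA
    obtain ⟨p, hp, hle, x, y, hxy⟩ := hN.2 A (A + 1) (by simp) (by omega) (by omega)
    have hpT : p < T := by
      by_contra hpT
      push Not at hpT
      have hne : p ≠ T := by
        rintro rfl
        rw [hT] at hp
        exact (Nat.Prime.eq_one_of_pow hp).symm.not_lt (by norm_num)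
      have h3 : (T + 1) ^ k ≤ p ^ k := Nat.pow_le_pow_left (by omega) k
      have h4 : A * A ≤ 2 * L * (2 * L) := Nat.mul_le_mul hA.2 hA.2
      nlinarith
    have hAq : A * (x + y) ≤ p ^ k := by rw [hxy]; nlinarith
    refine ⟨(p, x + y), hpT, ?_, ?_, hAq, ?_⟩
    · rcases Nat.eq_zero_or_pos (x + y) with h | h
      · exfalso
        have hx : x = 0 := by omega
        have hy : y = 0 := by omega
        rw [hx, hy, mul_zero, mul_zero] at hxy
        have := pow_pos hp.pos k
        rw [hxy] at this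
        exact lt_irrefl _ this
      · exact h
    · rw [Nat.le_div_iff_mul_le hLpos]
      have h5 : p ^ k ≤ (T - 1) ^ k := Nat.pow_le_pow_left (by omega) k
      have h6 : L * (x + y) ≤ A * (x + y) := Nat.mul_le_mul_right _ hA.1.le
      show (x + y) * L ≤ _
      rw [mul_comm]
      exact h6.trans (hAq.trans h5)
    · show p ^ k ≤ (A + 1) * (x + y)
      rw [hxy]; nlinarith
  choose! w hw using hgood
  have hinj : Set.InjOn (fun A => (w A, A % 2)) (Finset.Ioc L (2 * L) : Set ℕ) := by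
    have key : ∀ A ∈ Finset.Ioc L (2 * L), ∀ B ∈ Finset.Ioc L (2 * L), w A = w B → A + 2 ≤ B →
        False := by
      intro A hA B hB hAB h
      obtain ⟨-, a2, -, -, a5⟩ := hw A hA
      obtain ⟨-, -, -, b4, -⟩ := hw B hB
      rw [← hAB] at b4
      have h3 : (A + 2) * (w A).2 ≤ B * (w A).2 := Nat.mul_le_mul_right _ h
      nlinarith
    intro A hA B hB hAB
    have hA' : A ∈ Finset.Ioc L (2 * L) := hA
    have hB' : B ∈ Finset.Ioc L (2 * L) := hB
    simp only [Prod.mk.injEq] at hAB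
    obtain ⟨h3, h4⟩ := hAB
    rcases lt_trichotomy A B with h | h | h
    · exact (key A hA' B hB' h3 (by omega)).elim
    · exact h
    · exact (key B hB' A hA' h3.symm (by omega)).elim
  have hmap : ∀ A ∈ Finset.Ioc L (2 * L), (w A, A % 2) ∈
      (Finset.range T ×ˢ Finset.Icc 1 ((T - 1) ^ k / L)) ×ˢ Finset.range 2 := by
    intro A hA
    obtain ⟨a1, a2, a3, -, -⟩ := hw A hA
    rw [Finset.mem_product, Finset.mem_product, Finset.mem_range, Finset.mem_Icc, Finset.mem_range]
    exact ⟨⟨a1, a2, a3⟩, Nat.mod_lt _ (by norm_num)⟩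
  have hcard := Finset.card_le_card_of_injOn _ hmap hinj
  rw [Finset.card_product, Finset.card_product, Finset.card_range, Finset.card_range, Nat.card_Icc,
    Nat.card_Ioc] at hcard
  have h7 : (T - 1) ^ k / L * L ≤ (T - 1) ^ k := Nat.div_mul_le_self _ _
  have h8 : L ≤ T * ((T - 1) ^ k / L) * 2 := by
    have e1 : 2 * L - L = L := by omega
    have e2 : (T - 1) ^ k / L + 1 - 1 = (T - 1) ^ k / L := Nat.add_sub_cancel _ _
    rw [e1, e2] at hcard
    exact hcard
  have h9 : L * L ≤ T * ((T - 1) ^ k / L) * 2 * L := Nat.mul_le_mul_right _ h8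
  have h10 : T * ((T - 1) ^ k / L) * 2 * L = 2 * T * ((T - 1) ^ k / L * L) := by ring
  have h11 : 2 * T * ((T - 1) ^ k / L * L) ≤ 2 * T * (T - 1) ^ k := Nat.mul_le_mul_left _ h7
  rw [hLL] at h1
  omega

/-- The two conditions of `count` hold for `k > t ^ 2 log (2 t ^ 2)`. -/
theorem explicit (t k : ℕ) (ht : 2 ≤ t) (hk : (t : ℝ) ^ 2 * Real.log (2 * (t : ℝ) ^ 2) < k) (N : ℕ)
    (hN : IsThreshold k N) : t ^ k < N := by
  have ht2 : (2 : ℝ) ≤ t := by exact_mod_cast ht
  have hT4 : (4 : ℝ) ≤ (t : ℝ) ^ 2 := by nlinarith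
  set T : ℝ := (t : ℝ) ^ 2 with hT
  have hTpos : 0 < T := by linarith
  have hlog : Real.log 8 ≤ Real.log (2 * T) := Real.log_le_log (by norm_num) (by linarith)
  have hlog2 : 0.6931471803 < Real.log 2 := Real.log_two_gt_d9
  have hlog8 : Real.log 8 = 3 * Real.log 2 := by
    rw [show (8 : ℝ) = 2 ^ 3 by norm_num, Real.log_pow]; norm_num
  have hlog4 : Real.log 4 = 2 * Real.log 2 := by
    rw [show (4 : ℝ) = 2 ^ 2 by norm_num, Real.log_pow]; norm_num
  have hkpos : (0 : ℝ) < k := by nlinarith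
  have hT1 : 1 ≤ t ^ 2 := Nat.one_le_pow _ _ (by omega)
  have hTcast : ((t ^ 2 - 1 : ℕ) : ℝ) = T - 1 := by rw [Nat.cast_sub hT1]; push_cast; rfl
  apply count k t ht _ _ N hN
  · -- `2 T (T - 1) ^ k < T ^ k`
    have h1 : (2 * T) * (T - 1) ^ k < T ^ k := by
      have h2 : (T - 1) / T ≤ Real.exp (-(1 / T)) := by
        have := Real.add_one_le_exp (-(1 / T))
        calc (T - 1) / T = -(1 / T) + 1 := by field_simp; ring
          _ ≤ _ := this
      have h3 : ((T - 1) / T) ^ k ≤ Real.exp (-(k / T)) := by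
        calc ((T - 1) / T) ^ k ≤ (Real.exp (-(1 / T))) ^ k :=
              pow_le_pow_left₀ (div_nonneg (by linarith) hTpos.le) h2 k
          _ = Real.exp (-(k / T)) := by rw [← Real.exp_nat_mul]; congr 1; ring
      have h4 : Real.exp (-(k / T)) < 1 / (2 * T) := by
        rw [Real.exp_neg, one_div]
        apply inv_strictAnti₀ (by positivity)
        rw [← Real.log_lt_iff_lt_exp (by positivity), lt_div_iff₀ hTpos]
        linarith
      have h5 : ((T - 1) / T) ^ k < 1 / (2 * T) := h3.trans_lt h4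
      rw [div_pow, div_lt_div_iff₀ (by positivity) (by positivity)] at h5
      linarith
    have : ((2 * t ^ 2 * (t ^ 2 - 1) ^ k : ℕ) : ℝ) < (((t ^ 2) ^ k : ℕ) : ℝ) := by
      rw [Nat.cast_mul, Nat.cast_pow (t ^ 2 - 1) k, hTcast]
      push_cast
      exact h1
    exact_mod_cast this
  · -- `4 T ^ k < (T + 1) ^ k`
    have h1 : 4 * T ^ k < (T + 1) ^ k := by
      have h2 : T / (T + 1) ≤ Real.exp (-(1 / (T + 1))) := by
        have := Real.add_one_le_exp (-(1 / (T + 1)))
        calc T / (T + 1) = -(1 / (T + 1)) + 1 := by field_simp; ring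
          _ ≤ _ := this
      have h3 : (T / (T + 1)) ^ k ≤ Real.exp (-(k / (T + 1))) := by
        calc (T / (T + 1)) ^ k ≤ (Real.exp (-(1 / (T + 1)))) ^ k :=
              pow_le_pow_left₀ (by positivity) h2 k
          _ = Real.exp (-(k / (T + 1))) := by rw [← Real.exp_nat_mul]; congr 1; ring
      have h4 : Real.exp (-(k / (T + 1))) < 1 / 4 := by
        rw [Real.exp_neg, one_div]
        apply inv_strictAnti₀ (by positivity)
        rw [← Real.log_lt_iff_lt_exp (by positivity), lt_div_iff₀ (by positivity)]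
        nlinarith
      have h5 : (T / (T + 1)) ^ k < 1 / 4 := h3.trans_lt h4
      rw [div_pow, div_lt_div_iff₀ (by positivity) (by positivity)] at h5
      linarith
    have : ((4 * (t ^ 2) ^ k : ℕ) : ℝ) < (((t ^ 2 + 1) ^ k : ℕ) : ℝ) := by
      push_cast
      exact h1
    exact_mod_cast this

/-- For every real `M > 0` there is `k₀` such that for all `k ≥ k₀` every positive integer `N` with the
property defining `g(k)`, in particular the least one, is larger than `M ^ k`. -/
theorem result : ∀ M : ℝ, 0 < M → ∃ k₀ : ℕ, ∀ k : ℕ, k₀ ≤ k →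
    ∀ N : ℕ, IsThreshold k N → M ^ k < N := by
  intro M hM
  set t : ℕ := max 2 ⌈M⌉₊ with ht
  refine ⟨⌈(t : ℝ) ^ 2 * Real.log (2 * (t : ℝ) ^ 2)⌉₊ + 1, fun k hk N hN => ?_⟩
  have h1 : t ^ k < N := by
    apply explicit t k (le_max_left _ _) _ N hN
    have h2 := Nat.le_ceil ((t : ℝ) ^ 2 * Real.log (2 * (t : ℝ) ^ 2))
    have h3 : ((⌈(t : ℝ) ^ 2 * Real.log (2 * (t : ℝ) ^ 2)⌉₊ + 1 : ℕ) : ℝ) ≤ k := by exact_mod_cast hk
    push_cast at h3
    linarith
  have h2 : M ≤ t := (Nat.le_ceil M).trans (by exact_mod_cast le_max_right _ _)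
  calc M ^ k ≤ (t : ℝ) ^ k := pow_le_pow_left₀ hM.le h2 k
    _ < N := by exact_mod_cast h1

end Pool.Agent.Results.MP_0e842d_nt.SuperexponentialGrowth
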